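import Mathlib
import Pool.Agent.helper5.PR.SpecK
import Pool.Agent.helper48.PR.Base

/-!
# Project pr, module K-FG: `SL(n, ℤ)` is finitely generated
-/

set_option autoImplicit false

namespace Pool.Agent.PR

theorem K_FG : K_FG_stmt := by
  intro n
  rw [Group.fg_iff]
  refine ⟨Set.range (fun p : {p : Fin n × Fin n // p.1 ≠ p.2} => el p.1.1 p.1.2 p.2 1), ?_,
    Set.finite_range _⟩
  apply el_gen
  intro i j h
  exact Subgroup.subset_closure ⟨⟨(i, j), h⟩, rfl⟩

end Pool.Agent.PR
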