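import Mathlib
import Pool.Agent.helper5.PR.SpecS
import Pool.Agent.helper48.PR.Base

/-!
# Project pr, module S-SPAN: representations of dimension `n` with infinite image span all matrices
-/

set_option autoImplicit false

namespace Pool.Agent.PR

open Matrix

theorem S_SPAN_el {n : ℕ} (F : Type) [CommRing F] (i j : Fin n) (h : i ≠ j) :
    stdM F (el i j h 1) = 1 + Matrix.single i j 1 := by
  ext a b
  simp only [stdM, el, Matrix.transvection, Matrix.map_apply, Matrix.add_apply, map_add]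
  congr 1
  · by_cases hab : a = b
    · subst hab; simp
    · simp [Matrix.one_apply_ne hab]
  · by_cases h1 : i = a ∧ j = b
    · obtain ⟨rfl, rfl⟩ := h1
      simp
    · rw [Matrix.single_apply_of_ne _ _ _ _ _ h1, Matrix.single_apply_of_ne _ _ _ _ _ h1]
      simp

/-- the standard representation spans all matrices -/
theorem S_SPAN_top {n : ℕ} (hn : 3 ≤ n) (F : Type) [Field F]
    (W : Submodule F (Matrix (Fin n) (Fin n) F)) (h : ∀ γ : SLZ n, stdM F γ ∈ W)
    (A : Matrix (Fin n) (Fin n) F) : A ∈ W := by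
  have h1 : (1 : Matrix (Fin n) (Fin n) F) ∈ W := by
    have := h 1
    rwa [stdM_one] at this
  have h2 : ∀ i j : Fin n, i ≠ j → (Matrix.single i j (1 : F)) ∈ W := by
    intro i j hij
    have := W.sub_mem (h (el i j hij 1)) h1
    rwa [S_SPAN_el, add_sub_cancel_left] at this
  have h3 : ∀ i j : Fin n, (Matrix.single i j (1 : F)) ∈ W := by
    intro i j
    by_cases hij : i = j
    · subst hij
      obtain ⟨j, hj⟩ : ∃ j : Fin n, i ≠ j := by
        by_cases h0 : i = ⟨0, by omega⟩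
        · exact ⟨⟨1, by omega⟩, by rw [h0]; simp [Fin.ext_iff]⟩
        · exact ⟨⟨0, by omega⟩, h0⟩
      have h4 := h (el i j hj 1 * el j i hj.symm 1)
      have h7 : stdM F (el i j hj 1 * el j i hj.symm 1) =
          1 + Matrix.single i j 1 + Matrix.single j i 1 + Matrix.single i i 1 := by
        rw [stdM_mul, S_SPAN_el, S_SPAN_el, mul_add, add_mul, mul_one, add_mul, one_mul, mul_one,
          Matrix.single_mul_single_same, mul_one, ← add_assoc]
      rw [h7] at h4
      have h5 := W.sub_mem (W.sub_mem (W.sub_mem h4 h1) (h2 i j hj)) (h2 j i hj.symm)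
      have h6 : (1 : Matrix (Fin n) (Fin n) F) + Matrix.single i j 1 +
          Matrix.single j i 1 + Matrix.single i i 1 - 1 - Matrix.single i j 1 -
          Matrix.single j i 1 = Matrix.single i i 1 := by abel
      rwa [h6] at h5
    · exact h2 i j hij
  rw [Matrix.matrix_eq_sum_single A]
  refine W.sum_mem fun i _ => W.sum_mem fun j _ => ?_
  have : Matrix.single i j (A i j) = (A i j) • Matrix.single i j (1 : F) := by
    rw [Matrix.smul_single, smul_eq_mul, mul_one]
  rw [this]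
  exact W.smul_mem _ (h3 i j)

/-- the kernel of a linear functional given by coefficients -/
def S_SPAN_W {n : ℕ} {F : Type} [Field F] (β : Fin n → Fin n → F) :
    Submodule F (Matrix (Fin n) (Fin n) F) where
  carrier := {A | ∑ i, ∑ j, A i j * β i j = 0}
  add_mem' := by
    intro A B hA hB
    change ∑ i, ∑ j, (A i j + B i j) * β i j = 0
    have hA' : ∑ i, ∑ j, A i j * β i j = 0 := hA
    have hB' : ∑ i, ∑ j, B i j * β i j = 0 := hB
    simp only [add_mul, Finset.sum_add_distrib, hA', hB', add_zero]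
  zero_mem' := by
    change ∑ i, ∑ j, (0 : Matrix (Fin n) (Fin n) F) i j * β i j = 0
    simp
  smul_mem' := by
    intro c A hA
    change ∑ i, ∑ j, (c * A i j) * β i j = 0
    have hA' : ∑ i, ∑ j, A i j * β i j = 0 := hA
    simp only [mul_assoc, ← Finset.mul_sum, hA', mul_zero]

theorem S_SPAN_mem {n : ℕ} {F : Type} [Field F] (β : Fin n → Fin n → F)
    (A : Matrix (Fin n) (Fin n) F) : A ∈ S_SPAN_W β ↔ ∑ i, ∑ j, A i j * β i j = 0 := Iff.rfl

theorem S_SPAN_beta {n : ℕ} {F : Type} [Field F] (β : Fin n → Fin n → F)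
    (h : ∀ A, A ∈ S_SPAN_W β) (i j : Fin n) : β i j = 0 := by
  have h1 : ∑ a, ∑ c, (Matrix.single i j (1 : F)) a c * β a c = 0 := h _
  rw [Finset.sum_eq_single i, Finset.sum_eq_single j, Matrix.single_apply_same, one_mul] at h1
  · exact h1
  · intro c _ hc
    rw [Matrix.single_apply_of_ne _ _ _ _ _ (fun h => hc h.2.symm), zero_mul]
  · intro h; exact absurd (Finset.mem_univ _) h
  · intro a _ ha
    refine Finset.sum_eq_zero fun c _ => ?_
    rw [Matrix.single_apply_of_ne _ _ _ _ _ (fun h => ha h.1.symm), zero_mul]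
  · intro h; exact absurd (Finset.mem_univ _) h

theorem S_SPAN_sig {n : ℕ} {F R : Type} [Field F] [CommRing R] (σ : R →+* F)
    (a b : Fin n → Fin n → R) (h : ∑ i, ∑ j, a i j * b i j = 0) (M : Matrix (Fin n) (Fin n) F)
    (hM : ∀ i j, M i j = σ (a i j)) : M ∈ S_SPAN_W (fun i j => σ (b i j)) := by
  rw [S_SPAN_mem]
  have h3 := congrArg σ h
  rw [map_zero, map_sum] at h3
  rw [← h3]
  refine Finset.sum_congr rfl fun i _ => ?_
  rw [map_sum]
  refine Finset.sum_congr rfl fun j _ => ?_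
  rw [map_mul, hM]

theorem S_SPAN_all (hCL : CL_stmt) {n : ℕ} (hn : 3 ≤ n) (F : Type) [Field F] [CharZero F]
    (s : SLZ n →* Matrix (Fin n) (Fin n) F) (hs : (Set.range s).Infinite)
    (W : Submodule F (Matrix (Fin n) (Fin n) F)) (hWs : ∀ γ, s γ ∈ W) (A) : A ∈ W := by
  obtain ⟨x, y, hxy, hyx, h | h⟩ := hCL n hn F s hs
  · have h1 := S_SPAN_top hn F (W.comap
      ((LinearMap.mulLeft F x).comp (LinearMap.mulRight F y))) (fun γ => by
        change x * (stdM F γ * y) ∈ W
        rw [← mul_assoc, ← h γ]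
        exact hWs γ) (y * A * x)
    have h2 : x * (y * A * x * y) ∈ W := h1
    rwa [mul_assoc (y * A), hxy, mul_one, ← mul_assoc, hxy, one_mul] at h2
  · have h1 := S_SPAN_top hn F (W.comap
      (((LinearMap.mulLeft F x).comp (LinearMap.mulRight F y)).comp
        (Matrix.transposeLinearEquiv (Fin n) (Fin n) F F).toLinearMap)) (fun γ => by
        change x * ((stdM F γ)ᵀ * y) ∈ W
        have h3 := h γ⁻¹
        rw [duM, inv_inv] at h3
        rw [← mul_assoc, ← h3]
        exact hWs γ⁻¹) ((y * A * x)ᵀ)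
    have h2 : x * (((y * A * x)ᵀ)ᵀ * y) ∈ W := h1
    rwa [transpose_transpose, mul_assoc (y * A), hxy, mul_one, ← mul_assoc, hxy, one_mul] at h2

theorem S_SPAN_coord {n : ℕ} {E : Type} [Field E]
    (f : Matrix (Fin n) (Fin n) E →ₗ[E] E) (A : Matrix (Fin n) (Fin n) E) :
    f A = ∑ i, ∑ j, A i j * f (Matrix.single i j 1) := by
  conv_lhs => rw [Matrix.matrix_eq_sum_single A]
  rw [map_sum]
  refine Finset.sum_congr rfl fun i _ => ?_
  rw [map_sum]
  refine Finset.sum_congr rfl fun j _ => ?_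
  have : Matrix.single i j (A i j) = (A i j) • Matrix.single i j (1 : E) := by
    rw [Matrix.smul_single, smul_eq_mul, mul_one]
  rw [this, map_smul, smul_eq_mul]

theorem S_SPAN (hREW : S_REW_stmt) (hCL : CL_stmt) (hFG : K_FG_stmt) (hBC : K_BC_stmt)
    (hEMB : K_EMB_stmt) : S_SPAN_stmt := by
  classical
  intro n hn Λ _ hΛ hQ E _ _ ρ hρ
  by_contra hne
  obtain ⟨f, hf0, hf⟩ := Submodule.exists_le_ker_of_lt_top _ (lt_top_iff_ne_top.2 hne)
  have hfA := S_SPAN_coord f
  obtain ⟨S, hS, hSr⟩ := hBC n Λ hΛ E ρ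
  let S' : Finset E := S ∪ (Finset.univ : Finset (Fin n × Fin n)).image
    (fun p => f (Matrix.single p.1 p.2 1))
  have hle : Algebra.adjoin ℤ (S : Set E) ≤ Algebra.adjoin ℤ (S' : Set E) := by
    apply Algebra.adjoin_mono
    intro x hx
    exact Finset.mem_coe.2 (Finset.mem_union_left _ (Finset.mem_coe.1 hx))
  have hb : ∀ i j, f (Matrix.single i j 1) ∈ Algebra.adjoin ℤ (S' : Set E) := by
    intro i j
    apply Algebra.subset_adjoin
    exact Finset.mem_coe.2 (Finset.mem_union_right _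
      (Finset.mem_image.2 ⟨(i, j), Finset.mem_univ _, rfl⟩))
  obtain ⟨N, hN, hNℓ⟩ := (hEMB E S').1
  obtain ⟨ℓ, hℓN, hℓ⟩ := Nat.exists_infinite_primes (N + 1)
  have : Fact ℓ.Prime := ⟨hℓ⟩
  have hdiv : ¬ ℓ ∣ N := by
    intro h
    have := Nat.le_of_dvd (Nat.pos_of_ne_zero hN) h
    omega
  obtain ⟨σ, hσi, hσint⟩ := hNℓ ℓ hdiv
  obtain ⟨r, hr, hrinf⟩ := hSr (Om ℓ) (σ.comp (Subalgebra.inclusion hle).toRingHom)
    (hσi.comp (Subalgebra.inclusion_injective hle))
  have hrS : ∀ l i j, (r l : Matrix (Fin n) (Fin n) (Om ℓ)) i j =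
      σ ⟨(ρ l : Matrix (Fin n) (Fin n) E) i j, hle (hS l i j)⟩ := by
    intro l i j
    rw [hr l i j (hS l i j)]
    rw [RingHom.comp_apply]
    exact congrArg σ (Subtype.ext rfl)
  obtain ⟨s, hs1, hs2⟩ := hREW ℓ n (SLZ n) Λ (hFG n) hΛ hQ r
    (fun l i j => by rw [hrS]; exact hσint _)
  have h0 : ∀ l, (∑ i, ∑ j, (⟨(ρ l : Matrix (Fin n) (Fin n) E) i j, hle (hS l i j)⟩ :
      Algebra.adjoin ℤ (S' : Set E)) * ⟨f (Matrix.single i j 1), hb i j⟩) = 0 := by
    intro l
    apply Subtype.ext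
    have h2 : f (ρ l : Matrix (Fin n) (Fin n) E) = 0 :=
      hf (Submodule.subset_span ⟨l, rfl⟩)
    rw [hfA] at h2
    push_cast
    exact h2
  have hWs := hs2 (S_SPAN_W fun i j => σ ⟨f (Matrix.single i j 1), hb i j⟩)
    (fun l => S_SPAN_sig σ (fun i j => ⟨(ρ l : Matrix (Fin n) (Fin n) E) i j, hle (hS l i j)⟩)
      (fun i j => ⟨f (Matrix.single i j 1), hb i j⟩) (h0 l) _ (hrS l))
  have hall := S_SPAN_all hCL hn (Om ℓ) s (hs1 (hrinf hρ)) _ hWs
  have hβ := S_SPAN_beta _ hall
  apply hf0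
  apply LinearMap.ext
  intro A
  rw [hfA, LinearMap.zero_apply]
  refine Finset.sum_eq_zero fun i _ => Finset.sum_eq_zero fun j _ => ?_
  have h2 : (⟨f (Matrix.single i j 1), hb i j⟩ : Algebra.adjoin ℤ (S' : Set E)) = 0 := by
    apply hσi
    rw [map_zero]
    exact hβ i j
  have h3 : f (Matrix.single i j 1) = 0 := congrArg Subtype.val h2
  rw [h3, mul_zero]

end Pool.Agent.PR
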