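import Pool.Agent.helper5.PR.SpecY

/-!
# Project pr (MP_a2a22c_al), module Y-TWO: the two-sided case
-/

set_option autoImplicit false

namespace Pool.Agent.PR

open Matrix

theorem Y_TWO (hCNL : X_CNL_stmt) (hLT1 : LT1_stmt) : Y_TWO_stmt := by
  intro n hn L _ hfg hrf h1 h2 hX
  obtain ⟨m, d, Φ, hm, hd, -, hsur, hker⟩ := hX
  obtain ⟨P, hP⟩ := hCNL n hn m d hm hd L Φ hsur hker
  exact hLT1 n hn L hfg h1 h2 hrf P ⟨hP.1, hP.2.1, Or.inl hP.2.2⟩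

end Pool.Agent.PR
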